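import Pool.Agent.KAF.ZA

/-!
# Vassiliev invariants detect all arborescent knots

Let `t` be a plumbing tree with integer weights in which every vertex of valence at most two has a weight
of absolute value at least two; the weights of the other vertices are arbitrary.  If the arborescent
link of `t` is a knot then a rational Vassiliev invariant distinguishes it from the unknot, of a
degree which depends only on the number of vertices of the tree.
-/

namespace Pool.Agent.Results.MP_5f6b43_gt.AllArborescentKnots

open Pool.Agent.Helper77.ST (IsKnot IsVassiliev)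
open Pool.Agent.Helper9.Kashaev (Diagram plumbLink)
open Pool.Agent.Helper9.TG (PTree)

/-- Every vertex except the root with at most one child has a weight of absolute value at least `2`. -/
def Inner : PTree → Prop
  | .leaf _ => True
  | .graft p c => Inner p ∧ Inner c ∧ (c.deg ≤ 1 → 2 ≤ c.wt.natAbs)

/-- All weights at vertices of valence at most `2` have absolute value at least `2`. -/
def Reduced (t : PTree) : Prop := Inner t ∧ (t.deg ≤ 2 → 2 ≤ t.wt.natAbs)

theorem inner_eq : ∀ t : PTree, Inner t ↔ Pool.Agent.KAF.Inner t
  | .leaf _ => Iff.rfl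
  | .graft p c => and_congr (inner_eq p) (and_congr (inner_eq c) Iff.rfl)

theorem result (n : ℕ) : ∃ d : ℕ, ∀ t : PTree, t.size ≤ n → Reduced t → IsKnot (plumbLink t) →
    ∃ I : Diagram → ℚ, IsVassiliev d I ∧ I (plumbLink t) ≠ I [] := by
  obtain ⟨d, hd⟩ := Pool.Agent.KAF.detect n
  exact ⟨d, fun t hn ht hk => hd t hn ⟨(inner_eq t).mp ht.1, ht.2⟩ hk⟩

end Pool.Agent.Results.MP_5f6b43_gt.AllArborescentKnots
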