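import Pool.Agent.EVT.XH

/-!
# Evenly twisted knots whose regions of minimal valuation do not dissolve

A pattern is a plane diagram with one strand at the bottom and at the top whose vertices are the twist
regions (antiparallel twists); it need not be reduced or twist-reduced.  Let every vertex be replaced by a
number of crossings divisible by `2 ^ (u + 1)`, with any signs, and let the result be a knot.  Let `D` be
the set of the vertices whose numbers are not divisible by `2 ^ (u + 2)`, for `u = 0` the regions with
`2` modulo `4` crossings.  If `D` does not dissolve, then a rational Vassiliev invariant distinguishes the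
knot from the unknot, of a degree which depends only on the number of vertices.
-/

namespace Pool.Agent.Results.MP_5f6b43_gt.EvenlyTwisted

open Pool.Agent.Helper9.FA (Item labels wfP)
open Pool.Agent.Helper77.ST (IsKnot tw IsVassiliev)
open Pool.Agent.EVT (Dissolves)

theorem result (n : ℕ) :
    ∃ d : ℕ, ∀ S : List (Item Unit), wfP 1 S 1 → (labels S).length = n →
      ∀ (a : List ℤ) (u : ℕ), a.length = n → (∀ x ∈ a, (2 : ℤ) ^ (u + 1) ∣ x) →
        ¬ Dissolves S ((Finset.range n).filter fun i => ¬ (2 : ℤ) ^ (u + 2) ∣ a.getD i 0) →
        IsKnot (tw S a) → ∃ I, IsVassiliev d I ∧ I (tw S a) ≠ I [] :=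
  Pool.Agent.EVT.main4 n

end Pool.Agent.Results.MP_5f6b43_gt.EvenlyTwisted
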