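import Pool.Agent.Helper29.RD.Typ

/-!
# Random crossing choices on a fixed shadow: Vassiliev invariants detect almost all of them

Shadows are closed singular braids with one component, on any number of strands, whose double
points are crossings with a free sign. The pattern is the shadow of an iterated commutator of
`σ_i²` and `σ_j²`, `|i - j| = 1` (three adjacent strands).
-/

set_option autoImplicit false

namespace Pool.Agent.Results.MP_5f6b43_gt.RandomCrossings

open Pool.Agent.Helper67.KZ Pool.Agent.Helper29.RD

/-- (a) For every `k` there is `C` such that for every shadow `x` with one component (on any number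
of strands, with any fixed crossings) which contains `m ≥ 1` disjoint copies of the pattern number
`2 k - 1`, and every closed braid `K`, at most `C m ^ (-k / 2) 2 ^ N` of the `2 ^ N` choices of the
`N` free crossings have the same rational Vassiliev invariants of degree `≤ 2 k` as `K`.
(b) For `n ≥ 2` and every `k` there are `C` and `c > 0` such that for every `N` all but
`exp (- c N) n ^ N` of the `n ^ N` shadows of length `N` on `n + 1` strands, if they have one
component, satisfy: for every `K` at most `C N ^ (-k / 2) 2 ^ N` of the `2 ^ N` crossing choices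
have the same rational Vassiliev invariants of degree `≤ 2 k` as `K`. -/
theorem result :
    (∀ k : ℕ, ∃ C : ℝ, ∀ (n : ℕ) (x : SWord n), SIsKnot x → ∀ m : ℕ, 1 ≤ m →
      Has (2 * k - 1) m x → ∀ (l : ℕ) (K : Word l),
      ({ε : Fin (doublePoints x) → Bool |
          Agree (2 * k) (fill x (List.ofFn ε)) K}.ncard : ℝ) * (Real.sqrt m) ^ k ≤
        C * 2 ^ doublePoints x) ∧
    (∀ n : ℕ, 2 ≤ n → ∀ k : ℕ, ∃ C c : ℝ, 0 < c ∧ ∀ N : ℕ,
      ({s : Fin N → Fin n | SIsKnot (List.ofFn fun t => ((s t, none) : Fin n × Option Bool)) ∧
        ∃ (l : ℕ) (K : Word l), C * 2 ^ N <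
          ({ε : Fin N → Bool | Agree (2 * k) (List.ofFn fun t => (s t, ε t)) K}.ncard : ℝ) *
            (Real.sqrt N) ^ k}.ncard : ℝ) ≤ Real.exp (-(c * N)) * (n : ℝ) ^ N) := by
  refine ⟨fun k => ?_, fun n hn k => typical n hn k⟩
  obtain ⟨C, _, hC⟩ := quenched k
  exact ⟨C, hC⟩

end Pool.Agent.Results.MP_5f6b43_gt.RandomCrossings
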