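import Pool.Agent.Helper77.UN.FIN
import Pool.Agent.Helper77.CR.FIN

/-!
# Vassiliev invariants detect all sufficiently twisted knots

Let `K` be a knot and `m ≥ 1`.  There are `C` and `d` such that every knot that has a reduced and
twist-reduced diagram with `m` twist regions and at least `C` crossings in each twist region is
separated from `K` by a rational Vassiliev invariant of degree at most `d`.

The diagrams are described by patterns: plane diagrams `S` in Morse position with `m` vertices; the
vertices are replaced by twist regions with `a 1, ..., a m` crossings, of any signs.  `Red S` says that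
`S` is connected, and that it stays connected if one vertex is replaced by two vertical
strands, or if one or two vertices are replaced by a maximum and a minimum.
-/

namespace Pool.Agent.Results.MP_5f6b43_gt.SufficientlyTwisted

open Pool.Agent.Helper77.ST (IsKnot IsVassiliev tw)
open Pool.Agent.Helper77.CR (Red)
open Pool.Agent.Helper9.Kashaev (Diagram)
open Pool.Agent.Helper9.FA (Item wfP labels)

theorem result (m : ℕ) (hm : 1 ≤ m) (K : Diagram) (_ : IsKnot K) :
    ∃ C d : ℕ, ∀ S : List (Item Unit), wfP 1 S 1 → Red S → (labels S).length = m →
      ∀ a : List ℤ, a.length = m → (∀ x ∈ a, C ≤ x.natAbs) → IsKnot (tw S a) →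
      ∃ I : Diagram → ℚ, IsVassiliev d I ∧ I (tw S a) ≠ I K := by
  obtain ⟨C, d, hC⟩ := Pool.Agent.Helper77.UN.uniform
    (fun h1 h2 => Pool.Agent.Helper77.CR.ang_of_red h1 h2)
    (fun h => Pool.Agent.Helper77.CR.red_conn h) m hm K
  exact ⟨C, d, fun S h1 h2 h3 a h4 h5 _ => hC S h1 h2 h3 a h4 h5⟩

end Pool.Agent.Results.MP_5f6b43_gt.SufficientlyTwisted
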